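import Pool.Agent.H934R2.Ch.Conv
import Pool.Agent.H828R3.GP.Main

/-!
Chamberland's real extension `f` of the Collatz map: for all but `O(X / y^(1/20))` of the `n ≤ X`,
uniformly in `X, y ≥ 1`, the interval `J n = [n, n + 5/(6(2n+1))]`, which for odd `n` contains the
critical point of `f` in `(n, n + 1/2)`, is carried by an iterate of `f` into some `J m`, `m ≤ y`.
-/

set_option autoImplicit false

namespace Pool.Agent.Results.MP_a247fa_nt.AlmostBoundedCriticalOrbits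

open Filter Topology Pool.Agent.H934R2.Ch
open Pool.Agent.H319R3.GC (Adm Tm PP)

/-- multipliers of the `3x+1` map -/
def m3 : ℕ → ℤ := fun i => if i = 0 then 1 else 3

/-- offsets of the `3x+1` map -/
def r3 : ℕ → ℤ := fun i => if i = 0 then 0 else -1

theorem adm3 : Adm 2 m3 r3 where
  two_le := le_refl _
  cop := by
    intro i hi
    interval_cases i
    · simpa [m3] using isCoprime_one_left
    · simp only [m3]
      norm_num
  adm := by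
    intro i hi
    interval_cases i
    · simp [m3, r3]
    · simp only [m3, r3]
      norm_num
  contr := by
    unfold PP m3
    simp [Finset.prod_range_succ]
  big := by
    unfold PP m3
    simp [Finset.prod_range_succ]

theorem Tm_T (n : ℕ) : Tm 2 m3 r3 (n : ℤ) = ((T n : ℕ) : ℤ) := by
  unfold Tm T
  rcases Nat.mod_two_eq_zero_or_one n with h | h
  · rw [if_pos h]
    have h1 : ((n : ℤ) % ((2 : ℕ) : ℤ)).toNat = 0 := by omega
    rw [h1]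
    simp only [m3, r3, if_true]
    push_cast
    omega
  · rw [if_neg (by omega)]
    have h1 : ((n : ℤ) % ((2 : ℕ) : ℤ)).toNat = 1 := by omega
    rw [h1]
    simp only [m3, r3, one_ne_zero, if_false]
    push_cast
    omega

theorem Tm_iter (n k : ℕ) : (Tm 2 m3 r3)^[k] (n : ℤ) = ((T^[k] n : ℕ) : ℤ) := by
  induction k with
  | zero => rfl
  | succ k ih =>
    rw [Function.iterate_succ_apply', Function.iterate_succ_apply', ih, Tm_T]

/-- the exponent -/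
theorem exp_ok : ∃ η : ℝ, 0 ≤ η ∧ η < 19 / 20 ∧
    (1 / 2 : ℝ) ^ (1 / 2 : ℝ) + (3 / 2 : ℝ) ^ (1 / 2 : ℝ) ≤ (2 : ℝ) ^ η := by
  set S : ℝ := (1 / 2 : ℝ) ^ (1 / 2 : ℝ) + (3 / 2 : ℝ) ^ (1 / 2 : ℝ) with hS
  have hA : (1 / 2 : ℝ) ^ (1 / 2 : ℝ) = √(1 / 2) := (Real.sqrt_eq_rpow _).symm
  have hB : (3 / 2 : ℝ) ^ (1 / 2 : ℝ) = √(3 / 2) := (Real.sqrt_eq_rpow _).symm
  rw [hA, hB] at hS
  have h1 : √(1 / 2 : ℝ) ≤ 0.70711 := by
    rw [Real.sqrt_le_left (by norm_num)]; norm_num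
  have h2 : √(3 / 2 : ℝ) ≤ 1.22475 := by
    rw [Real.sqrt_le_left (by norm_num)]; norm_num
  have h3 : (1 : ℝ) ≤ √(3 / 2 : ℝ) := by
    rw [Real.one_le_sqrt]; norm_num
  have hS1 : (1 : ℝ) ≤ S := by
    rw [hS]; have := Real.sqrt_nonneg (1 / 2 : ℝ); linarith
  have hS2 : S ≤ 1.93186 := by rw [hS]; linarith
  have hS20 : S ^ 20 < 2 ^ 19 := by
    calc S ^ 20 ≤ (1.93186 : ℝ) ^ 20 := by gcongr
      _ < 2 ^ 19 := by norm_num
  refine ⟨Real.logb 2 S, Real.logb_nonneg (by norm_num) hS1, ?_, ?_⟩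
  · have h4 : Real.logb 2 (S ^ 20) < Real.logb 2 (2 ^ 19) :=
      Real.logb_lt_logb (by norm_num) (by positivity) hS20
    rw [Real.logb_pow, Real.logb_pow, Real.logb_self_eq_one (by norm_num)] at h4
    push_cast at h4
    linarith
  · rw [Real.rpow_logb (by norm_num) (by norm_num) (by linarith)]

/-- The interval `J n = [n, n + 5/(6(2n+1))]`. -/
def J (n : ℕ) : Set ℝ := Set.Icc (n : ℝ) (n + 5 / (6 * (2 * (n : ℝ) + 1)))

theorem carry {n : ℕ} (hn : 1 ≤ n) (k : ℕ) : ∀ x ∈ J n, f^[k] x ∈ J (T^[k] n) :=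
  fun _ hx => shadow hn hx k

/-- the main reduction -/
theorem small_of {n : ℕ} (hn : 1 ≤ n) {y : ℝ} {k : ℕ} (h : ((T^[k] n : ℕ) : ℝ) ≤ y) :
    ∃ m i : ℕ, 1 ≤ m ∧ (m : ℝ) ≤ y ∧ ∀ x ∈ J n, f^[i] x ∈ J m :=
  ⟨T^[k] n, k, T_iter_pos hn k, h, carry hn k⟩

theorem J_le {m : ℕ} (hm : 1 ≤ m) {x : ℝ} (hx : x ∈ J m) : x ≤ m + 5 / 18 := by
  have h1 := b_le hm
  have h2 : x ≤ m + b m := hx.2
  linarith

theorem attracts_iter {z x : ℝ} (hz : 0 < Function.minimalPeriod f z) (h : Attracts z x) (i : ℕ) :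
    Attracts z (f^[i] x) := by
  obtain ⟨j, hj⟩ := h
  obtain ⟨q, hq⟩ : ∃ q, Function.minimalPeriod f z = q + 1 :=
    ⟨_, (Nat.succ_pred_eq_of_pos hz).symm⟩
  refine ⟨j + i * q, ?_⟩
  have h2 : (fun k : ℕ => f^[k * Function.minimalPeriod f z + (j + i * q)] (f^[i] x))
      = fun k : ℕ => (fun k : ℕ => f^[k * Function.minimalPeriod f z + j] x) (k + i) := by
    funext k
    rw [← Function.iterate_add_apply]
    show f^[k * Function.minimalPeriod f z + (j + i * q) + i] x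
      = f^[(k + i) * Function.minimalPeriod f z + j] x
    have h3 : k * Function.minimalPeriod f z + (j + i * q) + i
        = (k + i) * Function.minimalPeriod f z + j := by
      rw [hq]; ring
    rw [h3]
  rw [h2]
  exact (tendsto_add_atTop_iff_nat
    (f := fun k : ℕ => f^[k * Function.minimalPeriod f z + j] x) i).2 hj

/-- uniform power saving for `T` with the exponent `1/20` -/
theorem power : ∃ C : ℝ, 0 < C ∧ ∀ X y : ℝ, 1 ≤ X → 1 ≤ y →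
    ({n : ℕ | 1 ≤ n ∧ (n : ℝ) ≤ X ∧ ∀ k : ℕ, y < ((T^[k] n : ℕ) : ℝ)}.ncard : ℝ)
      ≤ C * X / y ^ (1 / 20 : ℝ) := by
  obtain ⟨η, h0, h1, h2⟩ := exp_ok
  obtain ⟨C, hC, h⟩ := Pool.Agent.H828R3.GP.power_saving adm3 (s := 1 / 2) (η := η) (by norm_num)
    h0 (by linarith) (by
      rw [Finset.sum_range_succ, Finset.sum_range_one]
      simp only [m3]
      norm_num
      norm_num at h2
      exact h2) (c := 1 / 20) (by norm_num) (by linarith)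
  refine ⟨C, hC, fun X y hX hy => le_trans ?_ (h X y hX hy)⟩
  have hfin : {x : ℤ | |(x : ℝ)| ≤ X ∧
      ∀ k : ℕ, y < |(((Tm 2 m3 r3)^[k] x : ℤ) : ℝ)|}.Finite := by
    apply (Set.finite_Icc (-⌈X⌉) ⌈X⌉).subset
    rintro x ⟨hx, -⟩
    have h1 := abs_le.1 hx
    have h2 := Int.le_ceil X
    rw [Set.mem_Icc]
    constructor
    · have : (-(⌈X⌉ : ℤ) : ℝ) ≤ x := by linarith
      exact_mod_cast this
    · have : (x : ℝ) ≤ (⌈X⌉ : ℤ) := by linarith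
      exact_mod_cast this
  have hsub : ((fun n : ℕ => (n : ℤ)) '' {n : ℕ | 1 ≤ n ∧ (n : ℝ) ≤ X ∧
      ∀ k : ℕ, y < ((T^[k] n : ℕ) : ℝ)}) ⊆
      {x : ℤ | |(x : ℝ)| ≤ X ∧ ∀ k : ℕ, y < |(((Tm 2 m3 r3)^[k] x : ℤ) : ℝ)|} := by
    rintro _ ⟨n, ⟨hn1, hnX, hn⟩, rfl⟩
    refine ⟨?_, fun k => ?_⟩
    · simpa using hnX
    · simp only
      rw [Tm_iter]
      rw [Int.cast_natCast, abs_of_nonneg (Nat.cast_nonneg _)]
      exact hn k
  have h2 := Set.ncard_le_ncard hsub hfin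
  rw [Set.ncard_image_of_injective _ Nat.cast_injective] at h2
  exact_mod_cast h2

/-- **Main theorem.** -/
theorem result :
    ∃ a : ℝ, a ∈ Set.Icc (1.19 : ℝ) 1.196 ∧ f (f a) = a ∧
      (∀ a' ∈ Set.Icc (1.19 : ℝ) 1.2, f (f a') = a' → a' = a) ∧
      -- for odd `n` the unique critical point of `f` in `(n, n + 1/2)` lies in `J n`
      (∀ n : ℕ, n % 2 = 1 → ∃! x : ℝ, (n : ℝ) < x ∧ x < n + 1 / 2 ∧ deriv f x = 0) ∧
      (∀ n : ℕ, n % 2 = 1 → ∀ x : ℝ, (n : ℝ) < x → x < n + 1 / 2 → deriv f x = 0 → x ∈ J n) ∧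
      -- quantitative bounds
      (∃ C : ℝ, 0 < C ∧ ∀ X y : ℝ, 1 ≤ X → 1 ≤ y →
        ({n : ℕ | 1 ≤ n ∧ (n : ℝ) ≤ X ∧
            ¬ ∃ m k : ℕ, 1 ≤ m ∧ (m : ℝ) ≤ y ∧ ∀ x ∈ J n, f^[k] x ∈ J m}.ncard : ℝ)
          ≤ C * X / y ^ (1 / 20 : ℝ) ∧
        ({n : ℕ | n % 2 = 1 ∧ (n : ℝ) ≤ X ∧
            ∃ x : ℝ, (n : ℝ) < x ∧ x < n + 1 / 2 ∧ deriv f x = 0 ∧
              ∀ k : ℕ, y + 5 / 18 < f^[k] x}.ncard : ℝ)
          ≤ C * X / y ^ (1 / 20 : ℝ) ∧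
        ({n : ℕ | n % 2 = 1 ∧ (n : ℝ) ≤ X ∧
            ∃ x : ℝ, (n : ℝ) < x ∧ x < n + 1 / 2 ∧ deriv f x = 0 ∧
              ∃ z : ℝ, AttrPt z ∧ Attracts z x ∧
                ∀ m : ℕ, 1 ≤ m → (m : ℝ) ≤ y → ∀ w ∈ J m, ¬ Attracts z w}.ncard : ℝ)
          ≤ C * X / y ^ (1 / 20 : ℝ) ∧
        ((∀ m : ℕ, 1 ≤ m → (m : ℝ) ≤ y → ∃ k : ℕ, T^[k] m = 1) →
          ({n : ℕ | n % 2 = 1 ∧ (n : ℝ) ≤ X ∧
              ∃ x : ℝ, (n : ℝ) < x ∧ x < n + 1 / 2 ∧ deriv f x = 0 ∧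
                ¬ (Attracts 1 x ∨ Attracts a x ∨
                  ∃ K : ℕ, f^[K] x ∈ Set.Icc (1.02 : ℝ) 1.05 ∧ f^[K + 2] x = f^[K] x)}.ncard : ℝ)
            ≤ C * X / y ^ (1 / 20 : ℝ))) ∧
      -- natural density one
      (∀ φ : ℕ → ℝ, Tendsto φ atTop atTop →
        Tendsto (fun N : ℕ => ({n : ℕ | 1 ≤ n ∧ n ≤ N ∧
            ∃ m k : ℕ, 1 ≤ m ∧ (m : ℝ) ≤ φ n ∧ ∀ x ∈ J n, f^[k] x ∈ J m}.ncard : ℝ) / N)
          atTop (𝓝 1)) := by
  obtain ⟨a, ha, hga⟩ := exists_a2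
  obtain ⟨C, hC, hb⟩ := power
  refine ⟨a, ha, hga, fun a' ha' h => a2_unique ha hga ha' h,
    fun n hn => exists_unique_odd n hn, fun n hn x h1 h2 h3 => crit_in_trap hn h1 h2 h3, ?_, ?_⟩
  · refine ⟨C, hC, fun X y hX hy => ?_⟩
    have hfin : {n : ℕ | 1 ≤ n ∧ (n : ℝ) ≤ X ∧ ∀ k : ℕ, y < ((T^[k] n : ℕ) : ℝ)}.Finite := by
      refine (Set.finite_Icc 1 ⌊X⌋₊).subset fun n hn => ⟨hn.1, ?_⟩
      exact Nat.le_floor hn.2.1
    refine ⟨?_, ?_, ?_, fun hver => ?_⟩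
    · refine le_trans ?_ (hb X y hX hy)
      have h : {n : ℕ | 1 ≤ n ∧ (n : ℝ) ≤ X ∧
          ¬ ∃ m k : ℕ, 1 ≤ m ∧ (m : ℝ) ≤ y ∧ ∀ x ∈ J n, f^[k] x ∈ J m} ⊆
          {n : ℕ | 1 ≤ n ∧ (n : ℝ) ≤ X ∧ ∀ k : ℕ, y < ((T^[k] n : ℕ) : ℝ)} := by
        rintro n ⟨h1, h2, h3⟩
        refine ⟨h1, h2, fun k => ?_⟩
        by_contra hk
        exact h3 (small_of h1 (not_lt.1 hk))
      exact_mod_cast Set.ncard_le_ncard h hfin
    · refine le_trans ?_ (hb X y hX hy)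
      have h : {n : ℕ | n % 2 = 1 ∧ (n : ℝ) ≤ X ∧
          ∃ x : ℝ, (n : ℝ) < x ∧ x < n + 1 / 2 ∧ deriv f x = 0 ∧
            ∀ k : ℕ, y + 5 / 18 < f^[k] x} ⊆
          {n : ℕ | 1 ≤ n ∧ (n : ℝ) ≤ X ∧ ∀ k : ℕ, y < ((T^[k] n : ℕ) : ℝ)} := by
        rintro n ⟨h1, h2, x, hx1, hx2, hx3, hx4⟩
        refine ⟨by omega, h2, fun k => ?_⟩
        by_contra hk
        obtain ⟨m, i, hm, hmy, hcar⟩ := small_of (by omega : 1 ≤ n) (not_lt.1 hk)
        have hx : x ∈ J n := crit_in_trap h1 hx1 hx2 hx3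
        have h5 := J_le hm (hcar x hx)
        have h6 := hx4 i
        linarith
      exact_mod_cast Set.ncard_le_ncard h hfin
    · refine le_trans ?_ (hb X y hX hy)
      have h : {n : ℕ | n % 2 = 1 ∧ (n : ℝ) ≤ X ∧
          ∃ x : ℝ, (n : ℝ) < x ∧ x < n + 1 / 2 ∧ deriv f x = 0 ∧
            ∃ z : ℝ, AttrPt z ∧ Attracts z x ∧
              ∀ m : ℕ, 1 ≤ m → (m : ℝ) ≤ y → ∀ w ∈ J m, ¬ Attracts z w} ⊆
          {n : ℕ | 1 ≤ n ∧ (n : ℝ) ≤ X ∧ ∀ k : ℕ, y < ((T^[k] n : ℕ) : ℝ)} := by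
        rintro n ⟨h1, h2, x, hx1, hx2, hx3, z, hz, hzx, hz4⟩
        refine ⟨by omega, h2, fun k => ?_⟩
        by_contra hk
        obtain ⟨m, i, hm, hmy, hcar⟩ := small_of (by omega : 1 ≤ n) (not_lt.1 hk)
        have hx : x ∈ J n := crit_in_trap h1 hx1 hx2 hx3
        exact hz4 m hm hmy _ (hcar x hx) (attracts_iter hz.2.1 hzx i)
      exact_mod_cast Set.ncard_le_ncard h hfin
    · refine le_trans ?_ (hb X y hX hy)
      have h : {n : ℕ | n % 2 = 1 ∧ (n : ℝ) ≤ X ∧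
          ∃ x : ℝ, (n : ℝ) < x ∧ x < n + 1 / 2 ∧ deriv f x = 0 ∧
            ¬ (Attracts 1 x ∨ Attracts a x ∨
              ∃ K : ℕ, f^[K] x ∈ Set.Icc (1.02 : ℝ) 1.05 ∧ f^[K + 2] x = f^[K] x)} ⊆
          {n : ℕ | 1 ≤ n ∧ (n : ℝ) ≤ X ∧ ∀ k : ℕ, y < ((T^[k] n : ℕ) : ℝ)} := by
        rintro n ⟨h1, h2, x, hx1, hx2, hx3, hx4⟩
        refine ⟨by omega, h2, fun k => ?_⟩
        by_contra hk
        have hn1 : 1 ≤ n := by omega
        obtain ⟨i, hi⟩ := hver _ (T_iter_pos hn1 k) (not_lt.1 hk)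
        rw [← Function.iterate_add_apply] at hi
        exact hx4 (conv_reach ha hga hn1 hi (crit_in_trap h1 hx1 hx2 hx3))
      exact_mod_cast Set.ncard_le_ncard h hfin
  · intro φ hφ
    rw [Metric.tendsto_atTop]
    intro ε hε
    obtain ⟨y, hy1, hyε⟩ : ∃ y : ℝ, 1 ≤ y ∧ C / y ^ (1 / 20 : ℝ) < ε / 2 := by
      have h1 : Tendsto (fun y : ℝ => C / y ^ (1 / 20 : ℝ)) atTop (𝓝 0) :=
        tendsto_const_nhds.div_atTop (tendsto_rpow_atTop (by norm_num))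
      have h2 := h1.eventually (gt_mem_nhds (show (0 : ℝ) < ε / 2 by positivity))
      obtain ⟨y, hy⟩ := (h2.and (eventually_ge_atTop (1 : ℝ))).exists
      exact ⟨y, hy.2, hy.1⟩
    obtain ⟨n0, hn0⟩ := Filter.tendsto_atTop_atTop.1 hφ y
    obtain ⟨N0, hN0⟩ := exists_nat_gt (2 * n0 / ε)
    refine ⟨N0 + 1, fun N hN => ?_⟩
    have hNpos : 0 < N := by omega
    have hNR : (0 : ℝ) < N := by exact_mod_cast hNpos
    set Good := {n : ℕ | 1 ≤ n ∧ n ≤ N ∧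
      ∃ m k : ℕ, 1 ≤ m ∧ (m : ℝ) ≤ φ n ∧ ∀ x ∈ J n, f^[k] x ∈ J m} with hGood
    set Bad := {n : ℕ | 1 ≤ n ∧ (n : ℝ) ≤ (N : ℝ) ∧ ∀ k : ℕ, y < ((T^[k] n : ℕ) : ℝ)} with hBad
    have hfinAll : (Set.Icc 1 N).Finite := Set.finite_Icc 1 N
    have hGsub : Good ⊆ Set.Icc 1 N := fun n hn => ⟨hn.1, hn.2.1⟩
    have hcardAll : (Set.Icc 1 N).ncard = N := by
      rw [← Finset.coe_Icc, Set.ncard_coe_finset, Nat.card_Icc]; omega
    have hupper : Good.ncard ≤ N := by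
      rw [← hcardAll]; exact Set.ncard_le_ncard hGsub hfinAll
    have hBfin : Bad.Finite := hfinAll.subset (fun n hn => ⟨hn.1, by exact_mod_cast hn.2.1⟩)
    have hcover : Set.Icc 1 N ⊆ Good ∪ (Bad ∪ Set.Iio n0) := by
      intro n hn
      by_cases h1 : n < n0
      · exact Or.inr (Or.inr h1)
      · by_cases h2 : ∀ k : ℕ, y < ((T^[k] n : ℕ) : ℝ)
        · exact Or.inr (Or.inl ⟨hn.1, by exact_mod_cast hn.2, h2⟩)
        · push Not at h2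
          obtain ⟨k, hk⟩ := h2
          exact Or.inl ⟨hn.1, hn.2, small_of hn.1 (hk.trans (hn0 n (by omega)))⟩
    have hlower : N ≤ Good.ncard + (Bad.ncard + n0) := by
      have h1 := Set.ncard_le_ncard hcover
        ((hfinAll.subset hGsub).union (hBfin.union (Set.finite_Iio n0)))
      rw [hcardAll] at h1
      have h2 := Set.ncard_union_le Good (Bad ∪ Set.Iio n0)
      have h3 := Set.ncard_union_le Bad (Set.Iio n0)
      have h4 : (Set.Iio n0).ncard = n0 := by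
        rw [← Finset.coe_Iio, Set.ncard_coe_finset, Nat.card_Iio]
      omega
    have hb' := hb N y (by exact_mod_cast hNpos) hy1
    rw [← hBad] at hb'
    have hn0N : (n0 : ℝ) / N < ε / 2 := by
      have h1 : (N0 : ℝ) < N := by exact_mod_cast (by omega : N0 < N)
      have h2 : 2 * (n0 : ℝ) / ε < N := by linarith
      rw [div_lt_iff₀ hε] at h2
      rw [div_lt_div_iff₀ hNR (by norm_num)]
      linarith
    have hupR : (Good.ncard : ℝ) ≤ N := by exact_mod_cast hupper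
    have hloR : (N : ℝ) ≤ Good.ncard + (Bad.ncard + n0) := by exact_mod_cast hlower
    rw [Real.dist_eq, abs_lt]
    constructor
    · have h1 : (1 : ℝ) - (Good.ncard : ℝ) / N ≤ (Bad.ncard : ℝ) / N + n0 / N := by
        rw [← add_div, one_sub_div hNR.ne']
        apply div_le_div_of_nonneg_right _ hNR.le
        linarith
      have h2 : (Bad.ncard : ℝ) / N ≤ C / y ^ (1 / 20 : ℝ) := by
        rw [div_le_iff₀ hNR]
        refine hb'.trans (le_of_eq (by ring))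
      linarith
    · have h1 : (Good.ncard : ℝ) / N ≤ 1 := by rw [div_le_one hNR]; exact hupR
      linarith

end Pool.Agent.Results.MP_a247fa_nt.AlmostBoundedCriticalOrbits
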